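import Mathlib

/-!
Project VE, package VAR, part 1: the abstract variance bound.
-/

set_option autoImplicit false

namespace Pool.Agent.U901.VE

open MeasureTheory ProbabilityTheory ComplexConjugate

theorem el1 (p : ℕ) (a h M : ℝ) (ha : 0 ≤ a) (haM : a ≤ M ^ 2) (hah : 0 ≤ a + h)
    (hahM : a + h ≤ M ^ 2) (_hM : 0 ≤ M) (hh : |h| ≤ 4 * M) :
    |(a + h) ^ (p + 1) - a ^ (p + 1) - (p + 1) * a ^ p * h| ≤ 8 * p * (p + 1) * (M ^ 2) ^ p := by
  induction p with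
  | zero => simp
  | succ p ih =>
    have e1 : (a + h) ^ (p + 1 + 1) - a ^ (p + 1 + 1) - ((p + 1 : ℕ) + 1) * a ^ (p + 1) * h =
        (a + h) * ((a + h) ^ (p + 1) - a ^ (p + 1) - (p + 1) * a ^ p * h) +
          (p + 1) * a ^ p * h ^ 2 := by
      push_cast; ring
    rw [e1]
    refine (abs_add_le _ _).trans ?_
    rw [abs_mul, abs_of_nonneg hah, abs_mul, abs_of_nonneg (by positivity : (0:ℝ) ≤ (p + 1) * a ^ p),
      abs_of_nonneg (sq_nonneg h)]
    have h1 : h ^ 2 ≤ 16 * M ^ 2 := by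
      have := pow_le_pow_left₀ (abs_nonneg h) hh 2
      rw [sq_abs] at this
      nlinarith
    have h2 : a ^ p ≤ (M ^ 2) ^ p := pow_le_pow_left₀ ha haM p
    have h3 : (a + h) * |(a + h) ^ (p + 1) - a ^ (p + 1) - (p + 1) * a ^ p * h| ≤
        M ^ 2 * (8 * p * (p + 1) * (M ^ 2) ^ p) :=
      mul_le_mul hahM ih (abs_nonneg _) (sq_nonneg _)
    have h4 : (p + 1) * a ^ p * h ^ 2 ≤ (p + 1) * (M ^ 2) ^ p * (16 * M ^ 2) := by
      have : (0 : ℝ) ≤ p + 1 := by positivity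
      have := sq_nonneg h
      have h5 : (p + 1) * a ^ p ≤ (p + 1) * (M ^ 2) ^ p :=
        mul_le_mul_of_nonneg_left h2 (by positivity)
      exact mul_le_mul h5 h1 (sq_nonneg _) (by positivity)
    calc (a + h) * |(a + h) ^ (p + 1) - a ^ (p + 1) - (p + 1) * a ^ p * h| +
          (p + 1) * a ^ p * h ^ 2
        ≤ M ^ 2 * (8 * p * (p + 1) * (M ^ 2) ^ p) + (p + 1) * (M ^ 2) ^ p * (16 * M ^ 2) :=
          add_le_add h3 h4
      _ = 8 * ((p + 1 : ℕ) : ℝ) * ((p + 1 : ℕ) + 1) * (M ^ 2) ^ (p + 1) := by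
          push_cast; ring

/-- the constant -/
noncomputable def Cp (p : ℕ) : ℝ := 8 * p * (p + 1) * 16 ^ p + 4 * (p + 1)

theorem Cp_nonneg (p : ℕ) : 0 ≤ Cp p := by unfold Cp; positivity

/-- `conj z |z|^{2p}` -/
noncomputable def HH (p : ℕ) (z : ℂ) : ℂ := conj z * ((‖z‖ ^ (2 * p) : ℝ) : ℂ)

theorem norm_HH (p : ℕ) (z : ℂ) : ‖HH p z‖ = ‖z‖ ^ (2 * p + 1) := by
  unfold HH
  rw [norm_mul, RCLike.norm_conj, Complex.norm_real, Real.norm_of_nonneg (by positivity)]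
  ring

theorem el2 (p : ℕ) (z r : ℂ) (hr : ‖r‖ ≤ 2) :
    |‖z + r‖ ^ (2 * (p + 1)) - ‖z‖ ^ (2 * (p + 1)) - 2 * (p + 1) * (r * HH p z).re| ≤
      Cp p * (‖z‖ ^ (2 * p) + 1) := by
  have hz := norm_nonneg z
  have hrn := norm_nonneg r
  have e0 : ‖z + r‖ ^ 2 = ‖z‖ ^ 2 + (2 * (r * conj z).re + ‖r‖ ^ 2) := by
    rw [← Complex.normSq_eq_norm_sq, ← Complex.normSq_eq_norm_sq, ← Complex.normSq_eq_norm_sq,
      Complex.normSq_add]
    have : (z * conj r).re = (r * conj z).re := by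
      simp only [Complex.mul_re, Complex.conj_re, Complex.conj_im]; ring
    rw [this]; ring
  have hre : |(r * conj z).re| ≤ 2 * ‖z‖ := by
    refine (Complex.abs_re_le_norm _).trans ?_
    rw [norm_mul, RCLike.norm_conj]
    exact mul_le_mul_of_nonneg_right hr hz
  have hh : |2 * (r * conj z).re + ‖r‖ ^ 2| ≤ 4 * (‖z‖ + 2) := by
    refine (abs_add_le _ _).trans ?_
    rw [abs_mul, abs_two, abs_of_nonneg (sq_nonneg ‖r‖)]
    nlinarith
  have hzr : ‖z + r‖ ≤ ‖z‖ + 2 := (norm_add_le _ _).trans (by linarith)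
  have h1 := el1 p (‖z‖ ^ 2) (2 * (r * conj z).re + ‖r‖ ^ 2) (‖z‖ + 2) (sq_nonneg _)
    (pow_le_pow_left₀ hz (by linarith) 2) (by rw [← e0]; positivity)
    (by rw [← e0]; exact pow_le_pow_left₀ (norm_nonneg _) hzr 2) (by positivity) hh
  rw [← e0, ← pow_mul, ← pow_mul, ← pow_mul, ← pow_mul] at h1
  have e2 : (r * HH p z).re = (r * conj z).re * ‖z‖ ^ (2 * p) := by
    unfold HH
    rw [← mul_assoc, Complex.re_mul_ofReal]
  have e3 : ‖z + r‖ ^ (2 * (p + 1)) - ‖z‖ ^ (2 * (p + 1)) - 2 * (p + 1) * (r * HH p z).re =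
      (‖z + r‖ ^ (2 * (p + 1)) - ‖z‖ ^ (2 * (p + 1)) -
        (p + 1) * ‖z‖ ^ (2 * p) * (2 * (r * conj z).re + ‖r‖ ^ 2)) +
        (p + 1) * ‖z‖ ^ (2 * p) * ‖r‖ ^ 2 := by
    rw [e2]; ring
  rw [e3]
  refine (abs_add_le _ _).trans ?_
  have h2 : |(p + 1) * ‖z‖ ^ (2 * p) * ‖r‖ ^ 2| ≤ (p + 1) * ‖z‖ ^ (2 * p) * 4 := by
    rw [abs_of_nonneg (by positivity)]
    refine mul_le_mul_of_nonneg_left ?_ (by positivity)
    nlinarith
  have h3 : (‖z‖ + 2) ^ (2 * p) ≤ 16 ^ p * (‖z‖ ^ (2 * p) + 1) := by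
    have h4 := add_pow_le hz (zero_le_two : (0:ℝ) ≤ 2) (2 * p)
    have h5 : (2 : ℝ) ^ (2 * p - 1) ≤ 2 ^ (2 * p) := pow_le_pow_right₀ (by norm_num) (by omega)
    have h6 : (1 : ℝ) ≤ 2 ^ (2 * p) := one_le_pow₀ (by norm_num)
    have h7 : (0 : ℝ) ≤ ‖z‖ ^ (2 * p) := by positivity
    calc (‖z‖ + 2) ^ (2 * p) ≤ 2 ^ (2 * p - 1) * (‖z‖ ^ (2 * p) + 2 ^ (2 * p)) := h4
      _ ≤ 2 ^ (2 * p) * (2 ^ (2 * p) * ‖z‖ ^ (2 * p) + 2 ^ (2 * p)) := by
          refine mul_le_mul h5 ?_ (by positivity) (by positivity)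
          nlinarith
      _ = 16 ^ p * (‖z‖ ^ (2 * p) + 1) := by
          rw [show (16 : ℝ) ^ p = 2 ^ (2 * p) * 2 ^ (2 * p) by
            rw [← pow_add, show 2 * p + 2 * p = 4 * p by ring, pow_mul]; norm_num]
          ring
  have h8 : 8 * (p : ℝ) * (p + 1) * (‖z‖ + 2) ^ (2 * p) ≤
      8 * p * (p + 1) * (16 ^ p * (‖z‖ ^ (2 * p) + 1)) :=
    mul_le_mul_of_nonneg_left h3 (by positivity)
  calc _ ≤ 8 * (p : ℝ) * (p + 1) * (‖z‖ + 2) ^ (2 * p) + (p + 1) * ‖z‖ ^ (2 * p) * 4 :=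
        add_le_add h1 h2
    _ ≤ 8 * p * (p + 1) * (16 ^ p * (‖z‖ ^ (2 * p) + 1)) + (p + 1) * ‖z‖ ^ (2 * p) * 4 :=
        add_le_add h8 le_rfl
    _ ≤ Cp p * (‖z‖ ^ (2 * p) + 1) := by
        unfold Cp
        have : (0 : ℝ) ≤ 4 * (p + 1) := by positivity
        nlinarith

theorem int_bdd {X : Type*} [MeasurableSpace X] {μ : Measure X} [IsFiniteMeasure μ] {E : Type*}
    [NormedAddCommGroup E] [MeasurableSpace E] [BorelSpace E] [SecondCountableTopology E]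
    {f : X → E} (hf : Measurable f) (C : ℝ) (h : ∀ x, ‖f x‖ ≤ C) : Integrable f μ :=
  Integrable.of_bound hf.aestronglyMeasurable C (ae_of_all _ h)

theorem sq_int_le {X : Type*} [MeasurableSpace X] {μ : Measure X} [IsProbabilityMeasure μ]
    {u : X → ℝ} (hu : Measurable u) (C : ℝ) (h : ∀ x, ‖u x‖ ≤ C) :
    (∫ x, u x ∂μ) ^ 2 ≤ ∫ x, u x ^ 2 ∂μ := by
  set c := ∫ x, u x ∂μ with hc
  have hi : Integrable u μ := int_bdd hu C h
  have hi2 : Integrable (fun x => u x ^ 2) μ := by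
    refine int_bdd (hu.pow_const 2) (C ^ 2) (fun x => ?_)
    rw [norm_pow]
    exact pow_le_pow_left₀ (norm_nonneg _) (h x) 2
  have h1 : 0 ≤ ∫ x, (u x - c) ^ 2 ∂μ := integral_nonneg (fun x => sq_nonneg _)
  have h2 : ∫ x, (u x - c) ^ 2 ∂μ = ∫ x, u x ^ 2 ∂μ - c ^ 2 := by
    have e : ∀ x, (u x - c) ^ 2 = u x ^ 2 - 2 * c * u x + c ^ 2 := fun x => by ring
    simp_rw [e]
    have e1 : ∫ x, (u x ^ 2 - 2 * c * u x + c ^ 2) ∂μ =
        ∫ x, (u x ^ 2 - 2 * c * u x) ∂μ + ∫ _, c ^ 2 ∂μ :=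
      integral_add (f := fun x => u x ^ 2 - 2 * c * u x) (g := fun _ => c ^ 2)
        (hi2.sub (hi.const_mul _)) (integrable_const _)
    rw [e1, integral_sub hi2 (hi.const_mul _), integral_const_mul, ← hc]
    simp
    ring
  linarith

section core

variable {α Ω : Type} [MeasurableSpace α] [MeasurableSpace Ω] (μ : Measure α) (P : Measure Ω)
    [IsProbabilityMeasure μ] [IsProbabilityMeasure P] (p : ℕ) (r R : α → Ω → ℂ) (M : ℝ)

theorem measurable_HH : Measurable (HH p) := by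
  unfold HH
  fun_prop

theorem core (hr : Measurable (Function.uncurry r)) (hR : Measurable (Function.uncurry R))
    (hr2 : ∀ a ω, ‖r a ω‖ ≤ 2) (hRM : ∀ a ω, ‖R a ω‖ ≤ M) (hM : 0 ≤ M) (K1 K2 κ0 : ℝ) (hK2 : 0 ≤ K2)
    (h1 : ∀ a, ∫ ω, ‖R a ω‖ ^ (4 * p) ∂P ≤ K1) (h2 : ∀ a, ∫ ω, ‖R a ω‖ ^ (4 * p + 2) ∂P ≤ K2)
    (hind : ∀ a b, ∫ ω, (r a ω * conj (r b ω)) * (HH p (R a ω) * conj (HH p (R b ω))) ∂P =
      (∫ ω, r a ω * conj (r b ω) ∂P) * ∫ ω, HH p (R a ω) * conj (HH p (R b ω)) ∂P)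
    (hκ : ∫ q : α × α, ‖∫ ω, r q.1 ω * conj (r q.2 ω) ∂P‖ ∂(μ.prod μ) ≤ κ0) :
    ∫ ω, (∫ a, ‖R a ω + r a ω‖ ^ (2 * (p + 1)) ∂μ - ∫ a, ‖R a ω‖ ^ (2 * (p + 1)) ∂μ) ^ 2 ∂P ≤
      8 * (p + 1) ^ 2 * (K2 * κ0) + 4 * Cp p ^ 2 * (K1 + 1) := by
  have hHm := measurable_HH p
  have hHn : ∀ a ω, ‖HH p (R a ω)‖ ≤ M ^ (2 * p + 1) := by
    intro a ω
    rw [norm_HH]
    exact pow_le_pow_left₀ (norm_nonneg _) (hRM a ω) _
  have hra : ∀ ω, Measurable (fun a => r a ω) := fun ω =>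
    hr.comp (measurable_id.prodMk measurable_const)
  have hRa : ∀ ω, Measurable (fun a => R a ω) := fun ω =>
    hR.comp (measurable_id.prodMk measurable_const)
  have hro : ∀ a, Measurable (fun ω => r a ω) := fun a =>
    hr.comp (measurable_const.prodMk measurable_id)
  have hRo : ∀ a, Measurable (fun ω => R a ω) := fun a =>
    hR.comp (measurable_const.prodMk measurable_id)
  -- the linear term
  let G : α → Ω → ℂ := fun a ω => r a ω * HH p (R a ω)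
  have hG : Measurable (Function.uncurry G) := hr.mul (hHm.comp hR)
  have hGa : ∀ ω, Measurable (fun a => G a ω) := fun ω =>
    hG.comp (measurable_id.prodMk measurable_const)
  set MG : ℝ := 2 * M ^ (2 * p + 1) with hMG
  have hGn : ∀ a ω, ‖G a ω‖ ≤ MG := by
    intro a ω
    show ‖r a ω * HH p (R a ω)‖ ≤ _
    rw [norm_mul]
    exact mul_le_mul (hr2 a ω) (hHn a ω) (norm_nonneg _) (by norm_num)
  have hMG0 : 0 ≤ MG := by positivity
  let I1 : Ω → ℂ := fun ω => ∫ a, G a ω ∂μ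
  have hI1 : Measurable I1 := by
    have := MeasureTheory.StronglyMeasurable.integral_prod_left (μ := μ) hG.stronglyMeasurable
    exact this.measurable
  have hI1n : ∀ ω, ‖I1 ω‖ ≤ MG := by
    intro ω
    have := norm_integral_le_of_norm_le_const (μ := μ) (ae_of_all _ (fun a => hGn a ω))
    simpa using this
  -- the pointwise bound
  have hpt : ∀ ω, (∫ a, ‖R a ω + r a ω‖ ^ (2 * (p + 1)) ∂μ -
      ∫ a, ‖R a ω‖ ^ (2 * (p + 1)) ∂μ) ^ 2 ≤
      8 * (p + 1) ^ 2 * ‖I1 ω‖ ^ 2 + 4 * Cp p ^ 2 * ∫ a, (‖R a ω‖ ^ (4 * p) + 1) ∂μ := by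
    intro ω
    let u : α → ℝ := fun a => ‖R a ω + r a ω‖ ^ (2 * (p + 1)) - ‖R a ω‖ ^ (2 * (p + 1)) -
      2 * (p + 1) * (G a ω).re
    have hu : ∀ a, |u a| ≤ Cp p * (‖R a ω‖ ^ (2 * p) + 1) := fun a => el2 p _ _ (hr2 a ω)
    have hum : Measurable u := by
      have h1 := hra ω
      have h2 := hRa ω
      have h3 := hGa ω
      have h4 : Measurable (fun a => (G a ω).re) := Complex.measurable_re.comp h3
      exact (((h2.add h1).norm.pow_const _).sub (h2.norm.pow_const _)).sub (h4.const_mul _)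
    have hub : ∀ a, ‖u a‖ ≤ Cp p * (M ^ (2 * p) + 1) := by
      intro a
      rw [Real.norm_eq_abs]
      refine (hu a).trans (mul_le_mul_of_nonneg_left ?_ (Cp_nonneg p))
      exact add_le_add (pow_le_pow_left₀ (norm_nonneg _) (hRM a ω) _) le_rfl
    have i1 : Integrable (fun a => ‖R a ω + r a ω‖ ^ (2 * (p + 1))) μ := by
      refine int_bdd (((hRa ω).add (hra ω)).norm.pow_const _) ((M + 2) ^ (2 * (p + 1))) (fun a => ?_)
      rw [norm_pow, norm_norm]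
      exact pow_le_pow_left₀ (norm_nonneg _) ((norm_add_le _ _).trans
        (add_le_add (hRM a ω) (hr2 a ω))) _
    have i2 : Integrable (fun a => ‖R a ω‖ ^ (2 * (p + 1))) μ := by
      refine int_bdd ((hRa ω).norm.pow_const _) (M ^ (2 * (p + 1))) (fun a => ?_)
      rw [norm_pow, norm_norm]
      exact pow_le_pow_left₀ (norm_nonneg _) (hRM a ω) _
    have i3 : Integrable (fun a => G a ω) μ := int_bdd (hGa ω) MG (fun a => hGn a ω)
    have i3r : Integrable (fun a => (G a ω).re) μ := i3.re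
    have e1 : ∫ a, u a ∂μ = ∫ a, ‖R a ω + r a ω‖ ^ (2 * (p + 1)) ∂μ -
        ∫ a, ‖R a ω‖ ^ (2 * (p + 1)) ∂μ - 2 * (p + 1) * (I1 ω).re := by
      have e2 : ∫ a, (G a ω).re ∂μ = (I1 ω).re := integral_re i3
      rw [← e2, ← integral_const_mul]
      show ∫ a, (‖R a ω + r a ω‖ ^ (2 * (p + 1)) - ‖R a ω‖ ^ (2 * (p + 1)) -
        2 * (p + 1) * (G a ω).re) ∂μ = _
      have e4 := integral_sub (f := fun a => ‖R a ω + r a ω‖ ^ (2 * (p + 1)) -
        ‖R a ω‖ ^ (2 * (p + 1))) (g := fun a => 2 * ((p : ℝ) + 1) * (G a ω).re) (μ := μ)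
        (i1.sub i2) (i3r.const_mul _)
      rw [e4, integral_sub i1 i2]
    have e3 : ∫ a, ‖R a ω + r a ω‖ ^ (2 * (p + 1)) ∂μ - ∫ a, ‖R a ω‖ ^ (2 * (p + 1)) ∂μ =
        ∫ a, u a ∂μ + 2 * (p + 1) * (I1 ω).re := by rw [e1]; ring
    rw [e3]
    have h3 : (∫ a, u a ∂μ) ^ 2 ≤ 2 * Cp p ^ 2 * ∫ a, (‖R a ω‖ ^ (4 * p) + 1) ∂μ := by
      refine (sq_int_le hum _ hub).trans ?_
      rw [← integral_const_mul]
      refine integral_mono_of_nonneg (ae_of_all _ (fun a => sq_nonneg _)) ?_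
        (ae_of_all _ (fun a => ?_))
      · refine Integrable.const_mul ?_ _
        refine int_bdd (((hRa ω).norm.pow_const _).add_const _) (M ^ (4 * p) + 1) (fun a => ?_)
        rw [Real.norm_of_nonneg (by positivity)]
        exact add_le_add (pow_le_pow_left₀ (norm_nonneg _) (hRM a ω) _) le_rfl
      · show u a ^ 2 ≤ 2 * Cp p ^ 2 * (‖R a ω‖ ^ (4 * p) + 1)
        have h4 := pow_le_pow_left₀ (abs_nonneg _) (hu a) 2
        rw [sq_abs, mul_pow] at h4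
        refine h4.trans ?_
        have h5 : (‖R a ω‖ ^ (2 * p) + 1) ^ 2 ≤ 2 * (‖R a ω‖ ^ (4 * p) + 1) := by
          have : ‖R a ω‖ ^ (4 * p) = (‖R a ω‖ ^ (2 * p)) ^ 2 := by
            rw [← pow_mul]; congr 1; ring
          rw [this]
          nlinarith [sq_nonneg (‖R a ω‖ ^ (2 * p) - 1)]
        have := mul_le_mul_of_nonneg_left h5 (sq_nonneg (Cp p))
        linarith
    have h6 : (I1 ω).re ^ 2 ≤ ‖I1 ω‖ ^ 2 := by
      rw [← sq_abs]
      exact pow_le_pow_left₀ (abs_nonneg _) (Complex.abs_re_le_norm _) 2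
    have h7 : (2 * ((p : ℝ) + 1) * (I1 ω).re) ^ 2 ≤ 4 * (p + 1) ^ 2 * ‖I1 ω‖ ^ 2 := by
      have h8 : (0 : ℝ) ≤ 4 * (p + 1) ^ 2 := by positivity
      have := mul_le_mul_of_nonneg_left h6 h8
      calc (2 * ((p : ℝ) + 1) * (I1 ω).re) ^ 2 = 4 * (p + 1) ^ 2 * (I1 ω).re ^ 2 := by ring
        _ ≤ _ := this
    nlinarith [sq_nonneg (∫ a, u a ∂μ - 2 * ((p : ℝ) + 1) * (I1 ω).re)]
  -- integration of the error
  have hRint : Integrable (Function.uncurry (fun (ω : Ω) (a : α) => ‖R a ω‖ ^ (4 * p) + 1))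
      (P.prod μ) := by
    refine int_bdd ?_ (M ^ (4 * p) + 1) ?_
    · exact ((hR.comp measurable_swap).norm.pow_const _).add_const _
    · rintro ⟨ω, a⟩
      show ‖‖R a ω‖ ^ (4 * p) + 1‖ ≤ _
      rw [Real.norm_of_nonneg (by positivity)]
      exact add_le_add (pow_le_pow_left₀ (norm_nonneg _) (hRM a ω) _) le_rfl
  have hE : ∫ ω, ∫ a, (‖R a ω‖ ^ (4 * p) + 1) ∂μ ∂P ≤ K1 + 1 := by
    rw [integral_integral_swap hRint]
    have h3 : ∀ a, ∫ ω, (‖R a ω‖ ^ (4 * p) + 1) ∂P ≤ K1 + 1 := by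
      intro a
      rw [integral_add _ (integrable_const _)]
      · simpa using h1 a
      · refine int_bdd ((hRo a).norm.pow_const _) (M ^ (4 * p)) (fun ω => ?_)
        rw [norm_pow, norm_norm]
        exact pow_le_pow_left₀ (norm_nonneg _) (hRM a ω) _
    calc ∫ a, ∫ ω, (‖R a ω‖ ^ (4 * p) + 1) ∂P ∂μ ≤ ∫ _, (K1 + 1) ∂μ :=
          integral_mono_of_nonneg (ae_of_all _ (fun a => integral_nonneg (fun ω => by positivity)))
            (integrable_const _) (ae_of_all _ h3)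
      _ = K1 + 1 := by simp
  -- integration of the linear term
  have hL : ∫ ω, ‖I1 ω‖ ^ 2 ∂P ≤ K2 * κ0 := by
    have e1 : ∀ ω, ((‖I1 ω‖ ^ 2 : ℝ) : ℂ) = ∫ q : α × α, G q.1 ω * conj (G q.2 ω) ∂(μ.prod μ) := by
      intro ω
      rw [integral_prod_mul (fun a => G a ω) (fun b => conj (G b ω)), integral_conj]
      rw [Complex.mul_conj, Complex.normSq_eq_norm_sq]
    have hFm : Measurable (Function.uncurry (fun (ω : Ω) (q : α × α) => G q.1 ω * conj (G q.2 ω))) := by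
      have m1 : Measurable (fun z : Ω × (α × α) => G z.2.1 z.1) :=
        hG.comp ((measurable_fst.comp measurable_snd).prodMk measurable_fst)
      have m2 : Measurable (fun z : Ω × (α × α) => G z.2.2 z.1) :=
        hG.comp ((measurable_snd.comp measurable_snd).prodMk measurable_fst)
      exact m1.mul (Complex.continuous_conj.measurable.comp m2)
    have hFi : Integrable (Function.uncurry (fun (ω : Ω) (q : α × α) => G q.1 ω * conj (G q.2 ω)))
        (P.prod (μ.prod μ)) := by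
      refine int_bdd hFm (MG * MG) ?_
      rintro ⟨ω, a, b⟩
      show ‖G a ω * conj (G b ω)‖ ≤ _
      rw [norm_mul, RCLike.norm_conj]
      exact mul_le_mul (hGn a ω) (hGn b ω) (norm_nonneg _) hMG0
    have e2 : ((∫ ω, ‖I1 ω‖ ^ 2 ∂P : ℝ) : ℂ) =
        ∫ q : α × α, (∫ ω, G q.1 ω * conj (G q.2 ω) ∂P) ∂(μ.prod μ) := by
      rw [← integral_complex_ofReal]
      rw [← integral_integral_swap hFi]
      exact integral_congr_ae (ae_of_all _ (fun ω => e1 ω))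
    have e3 : ∀ a b, ∫ ω, G a ω * conj (G b ω) ∂P =
        (∫ ω, r a ω * conj (r b ω) ∂P) * ∫ ω, HH p (R a ω) * conj (HH p (R b ω)) ∂P := by
      intro a b
      rw [← hind a b]
      refine integral_congr_ae (ae_of_all _ (fun ω => ?_))
      show r a ω * HH p (R a ω) * conj (r b ω * HH p (R b ω)) = _
      rw [map_mul]; ring
    have hη : ∀ a b, ‖∫ ω, HH p (R a ω) * conj (HH p (R b ω)) ∂P‖ ≤ K2 := by
      intro a b
      have i4 : ∀ a, Integrable (fun ω => ‖R a ω‖ ^ (4 * p + 2)) P := by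
        intro a
        refine int_bdd ((hRo a).norm.pow_const _) (M ^ (4 * p + 2)) (fun ω => ?_)
        rw [norm_pow, norm_norm]
        exact pow_le_pow_left₀ (norm_nonneg _) (hRM a ω) _
      refine (norm_integral_le_integral_norm _).trans ?_
      calc ∫ ω, ‖HH p (R a ω) * conj (HH p (R b ω))‖ ∂P
          ≤ ∫ ω, (‖R a ω‖ ^ (4 * p + 2) / 2 + ‖R b ω‖ ^ (4 * p + 2) / 2) ∂P := by
            refine integral_mono_of_nonneg (ae_of_all _ (fun ω => norm_nonneg _))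
              (((i4 a).div_const _).add ((i4 b).div_const _)) (ae_of_all _ (fun ω => ?_))
            show ‖HH p (R a ω) * conj (HH p (R b ω))‖ ≤
              ‖R a ω‖ ^ (4 * p + 2) / 2 + ‖R b ω‖ ^ (4 * p + 2) / 2
            rw [norm_mul, RCLike.norm_conj, norm_HH, norm_HH]
            have e4 : ∀ x : ℝ, x ^ (4 * p + 2) = (x ^ (2 * p + 1)) ^ 2 := fun x => by
              rw [← pow_mul]; congr 1; ring
            rw [e4, e4]
            nlinarith [sq_nonneg (‖R a ω‖ ^ (2 * p + 1) - ‖R b ω‖ ^ (2 * p + 1))]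
        _ = (∫ ω, ‖R a ω‖ ^ (4 * p + 2) ∂P) / 2 + (∫ ω, ‖R b ω‖ ^ (4 * p + 2) ∂P) / 2 := by
            rw [integral_add ((i4 a).div_const _) ((i4 b).div_const _), integral_div, integral_div]
        _ ≤ K2 := by linarith [h2 a, h2 b]
    have hkm : Measurable (fun q : α × α => ∫ ω, r q.1 ω * conj (r q.2 ω) ∂P) := by
      have m1 : Measurable (fun z : (α × α) × Ω => r z.1.1 z.2) :=
        hr.comp ((measurable_fst.comp measurable_fst).prodMk measurable_snd)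
      have m2 : Measurable (fun z : (α × α) × Ω => r z.1.2 z.2) :=
        hr.comp ((measurable_snd.comp measurable_fst).prodMk measurable_snd)
      have m3 : Measurable (fun z : (α × α) × Ω => r z.1.1 z.2 * conj (r z.1.2 z.2)) :=
        m1.mul (Complex.continuous_conj.measurable.comp m2)
      exact (MeasureTheory.StronglyMeasurable.integral_prod_right' (ν := P)
        m3.stronglyMeasurable).measurable
    have hkb : ∀ q : α × α, ‖∫ ω, r q.1 ω * conj (r q.2 ω) ∂P‖ ≤ 4 := by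
      intro q
      have := norm_integral_le_of_norm_le_const (μ := P)
        (f := fun ω => r q.1 ω * conj (r q.2 ω)) (C := 4) (ae_of_all _ (fun ω => by
          rw [norm_mul, RCLike.norm_conj]
          calc ‖r q.1 ω‖ * ‖r q.2 ω‖ ≤ 2 * 2 :=
                mul_le_mul (hr2 _ _) (hr2 _ _) (norm_nonneg _) (by norm_num)
            _ = 4 := by norm_num))
      simpa using this
    have h5 : ‖((∫ ω, ‖I1 ω‖ ^ 2 ∂P : ℝ) : ℂ)‖ ≤ K2 * κ0 := by
      rw [e2]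
      refine (norm_integral_le_integral_norm _).trans ?_
      calc ∫ q : α × α, ‖∫ ω, G q.1 ω * conj (G q.2 ω) ∂P‖ ∂(μ.prod μ)
          ≤ ∫ q : α × α, K2 * ‖∫ ω, r q.1 ω * conj (r q.2 ω) ∂P‖ ∂(μ.prod μ) := by
            refine integral_mono_of_nonneg (ae_of_all _ (fun q => norm_nonneg _))
              (Integrable.const_mul ?_ _) (ae_of_all _ (fun q => ?_))
            · exact (int_bdd hkm 4 hkb).norm
            · show ‖∫ ω, G q.1 ω * conj (G q.2 ω) ∂P‖ ≤ _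
              rw [e3, norm_mul, mul_comm]
              exact mul_le_mul_of_nonneg_right (hη _ _) (norm_nonneg _)
        _ = K2 * ∫ q : α × α, ‖∫ ω, r q.1 ω * conj (r q.2 ω) ∂P‖ ∂(μ.prod μ) :=
            integral_const_mul _ _
        _ ≤ K2 * κ0 := mul_le_mul_of_nonneg_left hκ hK2
    rw [Complex.norm_real] at h5
    exact (le_abs_self _).trans h5
  -- the end
  have i5 : Integrable (fun ω => ‖I1 ω‖ ^ 2) P := by
    refine int_bdd (hI1.norm.pow_const _) (MG ^ 2) (fun ω => ?_)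
    rw [norm_pow, norm_norm]
    exact pow_le_pow_left₀ (norm_nonneg _) (hI1n ω) 2
  have i6 : Integrable (fun ω => ∫ a, (‖R a ω‖ ^ (4 * p) + 1) ∂μ) P := hRint.integral_prod_left
  calc ∫ ω, (∫ a, ‖R a ω + r a ω‖ ^ (2 * (p + 1)) ∂μ -
        ∫ a, ‖R a ω‖ ^ (2 * (p + 1)) ∂μ) ^ 2 ∂P
      ≤ ∫ ω, (8 * (p + 1) ^ 2 * ‖I1 ω‖ ^ 2 +
        4 * Cp p ^ 2 * ∫ a, (‖R a ω‖ ^ (4 * p) + 1) ∂μ) ∂P :=
        integral_mono_of_nonneg (ae_of_all _ (fun ω => sq_nonneg _))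
          ((i5.const_mul _).add (i6.const_mul _)) (ae_of_all _ hpt)
    _ = 8 * (p + 1) ^ 2 * ∫ ω, ‖I1 ω‖ ^ 2 ∂P +
        4 * Cp p ^ 2 * ∫ ω, ∫ a, (‖R a ω‖ ^ (4 * p) + 1) ∂μ ∂P := by
        rw [integral_add (i5.const_mul _) (i6.const_mul _), integral_const_mul,
          integral_const_mul]
    _ ≤ 8 * (p + 1) ^ 2 * (K2 * κ0) + 4 * Cp p ^ 2 * (K1 + 1) := by
        refine add_le_add (mul_le_mul_of_nonneg_left hL (by positivity))
          (mul_le_mul_of_nonneg_left hE (by positivity))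

end core

end Pool.Agent.U901.VE
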