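import Pool.Agent.U901.VE.VC

/-!
Project VE, package VAR: the variance of the moment over the box.
-/

set_option autoImplicit false

namespace Pool.Agent.U901.VE

open MeasureTheory ProbabilityTheory ComplexConjugate Pool.Agent.U6.VE
open scoped ENNReal NNReal

theorem t_VAR : T_VAR := by
  intro hEFS hMOM hL2 k s D hk hs
  obtain ⟨p, rfl⟩ : ∃ p, s = p + 1 := ⟨s - 1, by omega⟩
  obtain ⟨CL, hCL0, hCL⟩ := hL2 k 1 D hk one_pos
  obtain ⟨C0, hC00, hC0⟩ := hMOM (p + 1)
  obtain ⟨C1, hC10, hC1⟩ := hMOM (2 * p)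
  obtain ⟨C2, hC20, hC2⟩ := hMOM (2 * p + 1)
  set V := (volume (box k 1)).toReal with hV
  have hV0 : 0 ≤ V := ENNReal.toReal_nonneg
  set Q1 : ℝ := 8 * (p + 1) ^ 2 * (C2 * (2 * (CL + V))) with hQ1
  set Q2 : ℝ := 4 * Cp p ^ 2 * (C1 + 1) with hQ2
  have hQ10 : 0 ≤ Q1 := by positivity
  have hQ20 : 0 ≤ Q2 := by positivity
  refine ⟨C0 + 2 * Q1 + Q2, by positivity, ?_⟩
  intro Ω _ P θ hmod N hN
  have hP := hmod.prob
  have hlaw := law_of_model hmod
  have hν := hlaw.prob
  set ν : ℕ → Measure ℝ := fun n => P.map (θ n) with hνdef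
  have hN1 : (1 : ℝ) ≤ N := by exact_mod_cast hN
  have hN0 : (0 : ℝ) ≤ N := by linarith
  -- the random variables
  have hrm : ∀ (α : Fin k → ℝ) (m : ℕ), Measurable (fun ω => rho ν m α (θ m ω)) := by
    intro α m
    exact meas_rho' (hν m) (fun _ => α) (θ m) measurable_const (hmod.meas m)
  have hrt : ∀ (α : Fin k → ℝ) (m : ℕ), Measurable (fun t => rho ν m α t) := by
    intro α m
    exact meas_rho' (hν m) (fun _ => α) (fun t => t) measurable_const measurable_id
  have hrn : ∀ (α : Fin k → ℝ) (m : ℕ) (ω : Ω), ‖rho ν m α (θ m ω)‖ ≤ 2 := by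
    intro α m ω
    have := hν m
    exact norm_rho α _
  have hind : ∀ α : Fin k → ℝ, iIndepFun (fun m ω => rho ν m α (θ m ω)) P := by
    intro α
    exact hmod.indep.comp (fun m t => rho ν m α t) (fun m => hrt α m)
  have hmom : ∀ (q : ℕ) (C : ℝ), (0 ≤ C) → (∀ (Ω : Type) [MeasurableSpace Ω] (P : Measure Ω)
      [IsProbabilityMeasure P] (r : ℕ → Ω → ℂ), (∀ n, Measurable (r n)) → iIndepFun r P →
      (∀ n ω, ‖r n ω‖ ≤ 2) → (∀ n, ∫ ω, r n ω ∂P = 0) → ∀ A : Finset ℕ,
      ∫ ω, ‖∑ n ∈ A, r n ω‖ ^ (2 * q) ∂P ≤ C * (A.card : ℝ) ^ q) →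
      ∀ (A : Finset ℕ) (α : Fin k → ℝ), A.card ≤ N →
      ∫ ω, ‖∑ m ∈ A, rho ν m α (θ m ω)‖ ^ (2 * q) ∂P ≤ C * (N : ℝ) ^ q := by
    intro q C hC h A α hA
    refine (h Ω P (fun m ω => rho ν m α (θ m ω)) (hrm α) (hind α) (hrn α)
      (fun m => mean_rho hmod m α) A).trans ?_
    refine mul_le_mul_of_nonneg_left ?_ hC
    have : (A.card : ℝ) ≤ N := by exact_mod_cast hA
    exact pow_le_pow_left₀ (Nat.cast_nonneg _) this q
  have hcard : (Finset.Icc 1 N).card ≤ N := by simp
  have hsumm : ∀ A : Finset ℕ, Measurable (Function.uncurry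
      (fun (α : Fin k → ℝ) (ω : Ω) => ∑ m ∈ A, rho ν m α (θ m ω))) := fun A =>
    meas_sum hν A (fun z : (Fin k → ℝ) × Ω => z.1) measurable_fst (fun m z => θ m z.2)
      (fun m => (hmod.meas m).comp measurable_snd)
  have hsumb : ∀ A : Finset ℕ, A.card ≤ N → ∀ (α : Fin k → ℝ) (ω : Ω),
      ‖∑ m ∈ A, rho ν m α (θ m ω)‖ ≤ 2 * N := by
    intro A hA α ω
    refine (norm_sum_le hν A (fun m => θ m ω) α).trans ?_
    have : (A.card : ℝ) ≤ N := by exact_mod_cast hA
    linarith
  constructor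
  · -- the mean
    have hint : Integrable (Function.uncurry (fun (ω : Ω) (α : Fin k → ℝ) =>
        ‖∑ m ∈ Finset.Icc 1 N, rho ν m α (θ m ω)‖ ^ (2 * (p + 1))))
        (P.prod (volume.restrict (box k (1 / 2)))) := by
      refine int_bdd ?_ ((2 * (N : ℝ)) ^ (2 * (p + 1))) ?_
      · exact ((hsumm (Finset.Icc 1 N)).comp measurable_swap).norm.pow_const _
      · rintro ⟨ω, α⟩
        show ‖‖∑ m ∈ Finset.Icc 1 N, rho ν m α (θ m ω)‖ ^ (2 * (p + 1))‖ ≤ _
        rw [norm_pow, norm_norm]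
        exact pow_le_pow_left₀ (norm_nonneg _) (hsumb _ hcard α ω) _
    have e1 : ∫ ω, ZZ k (p + 1) P θ N ω ∂P = ∫ ω, (∫ α in box k (1 / 2),
        ‖∑ m ∈ Finset.Icc 1 N, rho ν m α (θ m ω)‖ ^ (2 * (p + 1))) ∂P :=
      integral_congr_ae (ae_of_all _ (fun ω => ZZ_eq P θ N ω))
    rw [e1, integral_integral_swap hint]
    calc ∫ α in box k (1 / 2), ∫ ω, ‖∑ m ∈ Finset.Icc 1 N, rho ν m α (θ m ω)‖ ^ (2 * (p + 1)) ∂P
        ≤ ∫ _ in box k (1 / 2), C0 * (N : ℝ) ^ (p + 1) :=
          integral_mono_of_nonneg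
            (ae_of_all _ (fun α => integral_nonneg (fun ω => by positivity)))
            (integrable_const _) (ae_of_all _ (fun α => hmom (p + 1) C0 hC00 hC0 _ α hcard))
      _ = C0 * (N : ℝ) ^ (p + 1) := box_const k _
      _ ≤ (C0 + 2 * Q1 + Q2) * (N : ℝ) ^ (p + 1) :=
          mul_le_mul_of_nonneg_right (by linarith) (by positivity)
  · -- the variance
    have hvar := hEFS Ω P θ hmod.meas hmod.indep N ((2 * (N : ℝ)) ^ (2 * (p + 1)))
      (FA k (p + 1) ν (Finset.Icc 1 N)) (fun n => FA k (p + 1) ν ((Finset.Icc 1 N).erase n))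
      (meas_FA hν _) (fun n => meas_FA hν _) (abs_FA hν hcard)
      (fun n => abs_FA hν ((Finset.card_erase_le).trans hcard))
      (by
        intro x y hxy
        unfold FA
        refine integral_congr_ae (ae_of_all _ (fun α => ?_))
        show ‖∑ m ∈ Finset.Icc 1 N, rho ν m α (x m)‖ ^ (2 * (p + 1)) =
          ‖∑ m ∈ Finset.Icc 1 N, rho ν m α (y m)‖ ^ (2 * (p + 1))
        rw [Finset.sum_congr rfl (fun m hm => by rw [hxy m hm])])
      (by
        intro n x y hxy
        unfold FA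
        refine integral_congr_ae (ae_of_all _ (fun α => ?_))
        show ‖∑ m ∈ (Finset.Icc 1 N).erase n, rho ν m α (x m)‖ ^ (2 * (p + 1)) =
          ‖∑ m ∈ (Finset.Icc 1 N).erase n, rho ν m α (y m)‖ ^ (2 * (p + 1))
        rw [Finset.sum_congr rfl (fun m hm => by rw [hxy m (Finset.ne_of_mem_erase hm)])])
    have e0 : ∫ ω, (ZZ k (p + 1) P θ N ω - ∫ ω', ZZ k (p + 1) P θ N ω' ∂P) ^ 2 ∂P =
        ∫ ω, (FA k (p + 1) ν (Finset.Icc 1 N) (fun n => θ n ω) -
          ∫ ω', FA k (p + 1) ν (Finset.Icc 1 N) (fun n => θ n ω') ∂P) ^ 2 ∂P := by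
      have e1 : ∫ ω', ZZ k (p + 1) P θ N ω' ∂P =
          ∫ ω', FA k (p + 1) ν (Finset.Icc 1 N) (fun n => θ n ω') ∂P :=
        integral_congr_ae (ae_of_all _ (fun ω => ZZ_eq P θ N ω))
      rw [e1]
      refine integral_congr_ae (ae_of_all _ (fun ω => ?_))
      show (ZZ k (p + 1) P θ N ω - _) ^ 2 = _
      rw [ZZ_eq]
    rw [e0]
    refine hvar.trans ?_
    -- one summand
    have hone : ∀ n ∈ Finset.Icc 1 N, ∫ ω, (FA k (p + 1) ν (Finset.Icc 1 N) (fun m => θ m ω) -
        FA k (p + 1) ν ((Finset.Icc 1 N).erase n) (fun m => θ m ω)) ^ 2 ∂P ≤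
        Q1 * (N : ℝ) ^ (2 * p + 1) * (1 / Real.sqrt n) + Q2 * (N : ℝ) ^ (2 * p) := by
      intro n hn
      have hn1 : 1 ≤ n := (Finset.mem_Icc.mp hn).1
      have := hν n
      set A := (Finset.Icc 1 N).erase n with hA
      have hAc : A.card ≤ N := (Finset.card_erase_le).trans hcard
      have hκ1 := kappa_le (k := k) hmod n
      have hκ2 := int_im_le (k := k) hν CL n hn1 ((hCL ν hlaw).1 n hn1)
      have hcore := core (volume.restrict (box k (1 / 2))) P p
        (fun α ω => rho ν n α (θ n ω)) (fun α ω => ∑ m ∈ A, rho ν m α (θ m ω)) (2 * N)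
        (meas_rho' (hν n) (fun z : (Fin k → ℝ) × Ω => z.1) (fun z => θ n z.2) measurable_fst
          ((hmod.meas n).comp measurable_snd))
        (hsumm A) (fun α ω => hrn α n ω) (hsumb A hAc) (by positivity)
        (C1 * (N : ℝ) ^ (2 * p)) (C2 * (N : ℝ) ^ (2 * p + 1))
        (2 * ((CL + V) / Real.sqrt n)) (by positivity)
        (fun α => by
          have := hmom (2 * p) C1 hC10 hC1 A α hAc
          rwa [show 2 * (2 * p) = 4 * p by ring] at this)
        (fun α => by
          have := hmom (2 * p + 1) C2 hC20 hC2 A α hAc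
          rwa [show 2 * (2 * p + 1) = 4 * p + 2 by ring] at this)
        (by
          intro a b
          have hI := hmod.indep.indepFun_finset {n} A
            (by rw [Finset.disjoint_singleton_left, hA]; exact Finset.notMem_erase n _) hmod.meas
          have hφ : Measurable (fun y : (({n} : Finset ℕ) → ℝ) =>
              rho ν n a (y ⟨n, Finset.mem_singleton_self n⟩) *
                conj (rho ν n b (y ⟨n, Finset.mem_singleton_self n⟩))) :=
            ((hrt a n).comp (measurable_pi_apply _)).mul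
              (Complex.continuous_conj.measurable.comp ((hrt b n).comp (measurable_pi_apply _)))
          have hs : ∀ c : Fin k → ℝ, Measurable (fun y : (A → ℝ) => ∑ m : A, rho ν m c (y m)) :=
            fun c => Finset.measurable_sum _ (fun m _ => (hrt c m).comp (measurable_pi_apply _))
          have hψ : Measurable (fun y : (A → ℝ) => HH p (∑ m : A, rho ν m a (y m)) *
              conj (HH p (∑ m : A, rho ν m b (y m)))) :=
            ((measurable_HH p).comp (hs a)).mul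
              (Complex.continuous_conj.measurable.comp ((measurable_HH p).comp (hs b)))
          have hI2 := hI.comp hφ hψ
          have hes : ∀ (c : Fin k → ℝ) (ω : Ω), ∑ m : A, rho ν m c (θ m ω) =
              ∑ m ∈ A, rho ν m c (θ m ω) := fun c ω =>
            Finset.sum_coe_sort A (fun m => rho ν m c (θ m ω))
          have hX : AEStronglyMeasurable ((fun y : (({n} : Finset ℕ) → ℝ) =>
              rho ν n a (y ⟨n, Finset.mem_singleton_self n⟩) *
                conj (rho ν n b (y ⟨n, Finset.mem_singleton_self n⟩))) ∘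
              (fun ω (i : ({n} : Finset ℕ)) => θ i ω)) P :=
            (hφ.comp (measurable_pi_lambda _ (fun i => hmod.meas i))).aestronglyMeasurable
          have hY : AEStronglyMeasurable ((fun y : (A → ℝ) => HH p (∑ m : A, rho ν m a (y m)) *
              conj (HH p (∑ m : A, rho ν m b (y m)))) ∘ (fun ω (i : A) => θ i ω)) P :=
            (hψ.comp (measurable_pi_lambda _ (fun i => hmod.meas i))).aestronglyMeasurable
          have h9 := hI2.integral_fun_mul_eq_mul_integral hX hY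
          simp only [Function.comp_def, hes] at h9
          exact h9)
        (hκ1.trans (mul_le_mul_of_nonneg_left hκ2 (by norm_num)))
      have e2 : ∀ ω, (FA k (p + 1) ν (Finset.Icc 1 N) (fun m => θ m ω) -
          FA k (p + 1) ν A (fun m => θ m ω)) ^ 2 =
          ((∫ α in box k (1 / 2), ‖∑ m ∈ A, rho ν m α (θ m ω) + rho ν n α (θ n ω)‖ ^ (2 * (p + 1))) -
            ∫ α in box k (1 / 2), ‖∑ m ∈ A, rho ν m α (θ m ω)‖ ^ (2 * (p + 1))) ^ 2 := by
        intro ω
        unfold FA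
        congr 2
        refine integral_congr_ae (ae_of_all _ (fun α => ?_))
        show ‖∑ m ∈ Finset.Icc 1 N, rho ν m α (θ m ω)‖ ^ (2 * (p + 1)) =
          ‖∑ m ∈ A, rho ν m α (θ m ω) + rho ν n α (θ n ω)‖ ^ (2 * (p + 1))
        rw [hA, Finset.sum_erase_add _ _ hn]
      rw [integral_congr_ae (ae_of_all _ e2)]
      refine hcore.trans ?_
      have h4 : 8 * ((p : ℝ) + 1) ^ 2 * (C2 * (N : ℝ) ^ (2 * p + 1) *
          (2 * ((CL + V) / Real.sqrt n))) =
          Q1 * (N : ℝ) ^ (2 * p + 1) * (1 / Real.sqrt n) := by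
        rw [hQ1]; ring
      have h5 : 4 * Cp p ^ 2 * (C1 * (N : ℝ) ^ (2 * p) + 1) ≤ Q2 * (N : ℝ) ^ (2 * p) := by
        rw [hQ2]
        have h6 : (1 : ℝ) ≤ (N : ℝ) ^ (2 * p) := one_le_pow₀ hN1
        have h7 : C1 * (N : ℝ) ^ (2 * p) + 1 ≤ (C1 + 1) * (N : ℝ) ^ (2 * p) := by linarith
        calc 4 * Cp p ^ 2 * (C1 * (N : ℝ) ^ (2 * p) + 1)
            ≤ 4 * Cp p ^ 2 * ((C1 + 1) * (N : ℝ) ^ (2 * p)) :=
              mul_le_mul_of_nonneg_left h7 (by positivity)
          _ = 4 * Cp p ^ 2 * (C1 + 1) * (N : ℝ) ^ (2 * p) := by ring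
      rw [h4]
      exact add_le_add le_rfl h5
    refine (Finset.sum_le_sum hone).trans ?_
    rw [Finset.sum_add_distrib, ← Finset.mul_sum, Finset.sum_const]
    have hsq : ∀ M : ℕ, ∑ n ∈ Finset.Icc 1 M, (1 / Real.sqrt n) ≤ 2 * Real.sqrt M := by
      intro M
      induction M with
      | zero => simp
      | succ M ih =>
        rw [Finset.sum_Icc_succ_top (by omega)]
        refine (add_le_add ih le_rfl).trans ?_
        have h6 : (0 : ℝ) < ((M + 1 : ℕ) : ℝ) := by positivity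
        set x := Real.sqrt M with hx
        set y := Real.sqrt ((M + 1 : ℕ) : ℝ) with hy
        have hy0 : 0 < y := Real.sqrt_pos.mpr h6
        have hx0 : 0 ≤ x := Real.sqrt_nonneg _
        have hxx : x ^ 2 = M := Real.sq_sqrt (Nat.cast_nonneg _)
        have hyy : y ^ 2 = M + 1 := by
          rw [hy, Real.sq_sqrt h6.le]; push_cast; rfl
        have h7 : 1 / y = y - x ^ 2 / y := by
          field_simp
          linarith
        rw [h7]
        have h8 : 2 * x ≤ y + x ^ 2 / y := by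
          rw [← sub_nonneg]
          have : y + x ^ 2 / y - 2 * x = (y - x) ^ 2 / y := by field_simp; ring
          rw [this]; positivity
        linarith
    have h6 : (N : ℝ) ^ (2 * ((p + 1 : ℕ) : ℝ) - 1 / 2) = (N : ℝ) ^ (2 * p + 1) * Real.sqrt N := by
      have hNpos : (0 : ℝ) < N := by linarith
      rw [Real.sqrt_eq_rpow, ← Real.rpow_natCast, ← Real.rpow_add hNpos]
      congr 1
      push_cast
      ring
    rw [h6]
    have h7 : Q1 * (N : ℝ) ^ (2 * p + 1) * ∑ n ∈ Finset.Icc 1 N, (1 / Real.sqrt n) ≤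
        Q1 * (N : ℝ) ^ (2 * p + 1) * (2 * Real.sqrt N) :=
      mul_le_mul_of_nonneg_left (hsq N) (by positivity)
    have h8 : (Finset.Icc 1 N).card • (Q2 * (N : ℝ) ^ (2 * p)) ≤
        Q2 * ((N : ℝ) ^ (2 * p + 1) * Real.sqrt N) := by
      have h9 : (1 : ℝ) ≤ Real.sqrt N := by
        rw [Real.one_le_sqrt]; exact hN1
      have h10 : 0 ≤ Q2 * (N : ℝ) ^ (2 * p + 1) := by positivity
      rw [Nat.card_Icc, nsmul_eq_mul, Nat.add_sub_cancel]
      have e : (N : ℝ) * (Q2 * (N : ℝ) ^ (2 * p)) = Q2 * (N : ℝ) ^ (2 * p + 1) * 1 := by ring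
      rw [e, ← mul_assoc]
      exact mul_le_mul_of_nonneg_left h9 h10
    have h9 : 0 ≤ C0 * ((N : ℝ) ^ (2 * p + 1) * Real.sqrt N) := by positivity
    linarith

end Pool.Agent.U901.VE
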