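import Pool.Agent.U6.VE.Stm
import Pool.Agent.U901.VE.VA

/-!
Project VE, package VAR, part 2: the summands.
-/

set_option autoImplicit false

namespace Pool.Agent.U901.VE

open MeasureTheory ProbabilityTheory ComplexConjugate Pool.Agent.U6.VE
open scoped ENNReal NNReal

theorem norm_ee (x : ℝ) : ‖ee x‖ = 1 := by
  unfold ee
  exact Complex.norm_exp_ofReal_mul_I _

theorem ee_mul_conj (x y : ℝ) : ee x * conj (ee y) = ee (x - y) := by
  unfold ee
  rw [← Complex.exp_conj, ← Complex.exp_add]
  congr 1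
  rw [map_mul, Complex.conj_ofReal, Complex.conj_I]
  push_cast
  ring

theorem ph_sub {k : ℕ} (a b : Fin k → ℝ) (t : ℝ) : ph a t - ph b t = ph (a - b) t := by
  unfold ph
  rw [← Finset.sum_sub_distrib]
  refine Finset.sum_congr rfl (fun j _ => ?_)
  rw [Pi.sub_apply]; ring

theorem meas_ee : Measurable ee := by
  unfold ee
  fun_prop

theorem meas_ph {k : ℕ} : Measurable (fun z : (Fin k → ℝ) × ℝ => ph z.1 z.2) := by
  unfold ph
  fun_prop

theorem meas_eph {k : ℕ} (c : ℝ) : Measurable (fun z : (Fin k → ℝ) × ℝ => ee (ph z.1 (c + z.2))) := by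
  have h1 : Measurable (fun z : (Fin k → ℝ) × ℝ => ph z.1 (c + z.2)) :=
    meas_ph.comp (measurable_fst.prodMk (measurable_const.add measurable_snd))
  exact meas_ee.comp h1

theorem meas_im {k : ℕ} {ν : ℕ → Measure ℝ} {n : ℕ} [IsProbabilityMeasure (ν n)] :
    Measurable (im ν n : (Fin k → ℝ) → ℂ) := by
  unfold im
  exact (MeasureTheory.StronglyMeasurable.integral_prod_right' (ν := ν n)
    (meas_eph (k := k) (n : ℝ)).stronglyMeasurable).measurable

theorem norm_im_le {k : ℕ} {ν : ℕ → Measure ℝ} {n : ℕ} [IsProbabilityMeasure (ν n)]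
    (a : Fin k → ℝ) : ‖im ν n a‖ ≤ 1 := by
  unfold im
  have := norm_integral_le_of_norm_le_const (μ := ν n) (f := fun t => ee (ph a (n + t))) (C := 1)
    (ae_of_all _ (fun t => (norm_ee _).le))
  simpa using this

/-- the centred summand -/
noncomputable def rho {k : ℕ} (ν : ℕ → Measure ℝ) (n : ℕ) (a : Fin k → ℝ) (t : ℝ) : ℂ :=
  ee (ph a (n + t)) - im ν n a

theorem norm_rho {k : ℕ} {ν : ℕ → Measure ℝ} {n : ℕ} [IsProbabilityMeasure (ν n)]
    (a : Fin k → ℝ) (t : ℝ) : ‖rho ν n a t‖ ≤ 2 := by
  unfold rho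
  refine (norm_sub_le _ _).trans ?_
  have := norm_im_le (ν := ν) (n := n) a
  rw [norm_ee]
  linarith

theorem meas_rho {k : ℕ} {ν : ℕ → Measure ℝ} {n : ℕ} [IsProbabilityMeasure (ν n)] :
    Measurable (fun z : (Fin k → ℝ) × ℝ => rho ν n z.1 z.2) := by
  unfold rho
  exact (meas_eph (n : ℝ)).sub (meas_im.comp measurable_fst)

theorem box_vol (k : ℕ) : volume (box k (1 / 2)) = 1 := by
  unfold box
  rw [Real.volume_Icc_pi]
  norm_num

theorem box_meas (k : ℕ) (S : ℝ) : MeasurableSet (box k S) := measurableSet_Icc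

theorem box_fin (k : ℕ) (S : ℝ) : volume (box k S) ≠ ⊤ := by
  unfold box
  exact isCompact_Icc.measure_lt_top.ne

/-- translation -/
theorem box_shift {k : ℕ} {F : (Fin k → ℝ) → ℝ} (hF : Measurable F) (h0 : ∀ c, 0 ≤ F c)
    (h1 : ∀ c, F c ≤ 1) (b : Fin k → ℝ) (hb : b ∈ box k (1 / 2)) :
    ∫ a in box k (1 / 2), F (a - b) ≤ ∫ c in box k 1, F c := by
  rw [← integral_indicator (box_meas k (1 / 2)), ← integral_indicator (box_meas k 1)]
  have e1 : ∀ a, (box k (1 / 2)).indicator (fun a => F (a - b)) a =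
      (fun c => (box k (1 / 2)).indicator (fun a => F (a - b)) (c + b)) (a - b) := by
    intro a
    simp
  rw [integral_congr_ae (ae_of_all _ e1),
    integral_sub_right_eq_self (fun c => (box k (1 / 2)).indicator (fun a => F (a - b)) (c + b)) b]
  refine integral_mono_of_nonneg (ae_of_all _ (fun c => ?_)) ?_ (ae_of_all _ (fun c => ?_))
  · exact Set.indicator_nonneg (fun x _ => h0 _) _
  · rw [integrable_indicator_iff (box_meas k 1)]
    have : IsFiniteMeasure (volume.restrict (box k 1)) := ⟨by
      rw [Measure.restrict_apply_univ]; exact (box_fin k 1).lt_top⟩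
    exact int_bdd hF 1 (fun c => by rw [Real.norm_of_nonneg (h0 c)]; exact h1 c)
  · show (box k (1 / 2)).indicator (fun a => F (a - b)) (c + b) ≤ (box k 1).indicator F c
    by_cases hc : c + b ∈ box k (1 / 2)
    · rw [Set.indicator_of_mem hc]
      have hc1 : c ∈ box k 1 := by
        unfold box at hc hb ⊢
        rw [Set.mem_Icc] at hc hb ⊢
        constructor
        · intro j
          have h2 := hc.1 j
          have h3 := hb.2 j
          simp only [Pi.add_apply] at h2 h3 ⊢
          linarith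
        · intro j
          have h2 := hc.2 j
          have h3 := hb.1 j
          simp only [Pi.add_apply] at h2 h3 ⊢
          linarith
      rw [Set.indicator_of_mem hc1]
      simp
    · rw [Set.indicator_of_notMem hc]
      exact Set.indicator_nonneg (fun x _ => h0 _) _

section model

variable {Ω : Type} [MeasurableSpace Ω] {P : Measure Ω} {D : ℝ≥0} {θ : ℕ → Ω → ℝ}

theorem law_of_model (h : Model P D θ) : Law D (fun n => P.map (θ n)) := by
  have := h.prob
  exact ⟨fun n => Measure.isProbabilityMeasure_map (h.meas n).aemeasurable, h.dens⟩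

theorem int_eph {k : ℕ} (h : Model P D θ) (n : ℕ) (a : Fin k → ℝ) :
    ∫ ω, ee (ph a (n + θ n ω)) ∂P = im (fun n => P.map (θ n)) n a := by
  unfold im
  rw [integral_map (h.meas n).aemeasurable]
  exact ((meas_eph (n : ℝ)).comp (measurable_const.prodMk measurable_id)).aestronglyMeasurable

theorem meas_eo {k : ℕ} (h : Model P D θ) (n : ℕ) (a : Fin k → ℝ) :
    Measurable (fun ω => ee (ph a (n + θ n ω))) :=
  (meas_eph (n : ℝ)).comp (measurable_const.prodMk (h.meas n))

theorem mean_rho {k : ℕ} (h : Model P D θ) (n : ℕ) (a : Fin k → ℝ) :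
    ∫ ω, rho (fun n => P.map (θ n)) n a (θ n ω) ∂P = 0 := by
  have := h.prob
  unfold rho
  rw [integral_sub, int_eph h]
  · simp
  · exact int_bdd (meas_eo h n a) 1 (fun ω => (norm_ee _).le)
  · exact integrable_const _

theorem cov_rho {k : ℕ} (h : Model P D θ) (n : ℕ) (a b : Fin k → ℝ) :
    ∫ ω, rho (fun n => P.map (θ n)) n a (θ n ω) *
      conj (rho (fun n => P.map (θ n)) n b (θ n ω)) ∂P =
      im (fun n => P.map (θ n)) n (a - b) -
        im (fun n => P.map (θ n)) n a * conj (im (fun n => P.map (θ n)) n b) := by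
  have := h.prob
  set ma := im (fun n => P.map (θ n)) n a with hma
  set mb := im (fun n => P.map (θ n)) n b with hmb
  have i1 : Integrable (fun ω => ee (ph (a - b) (n + θ n ω))) P :=
    int_bdd (meas_eo h n (a - b)) 1 (fun ω => (norm_ee _).le)
  have ia : Integrable (fun ω => ee (ph a (n + θ n ω))) P :=
    int_bdd (meas_eo h n a) 1 (fun ω => (norm_ee _).le)
  have ib : Integrable (fun ω => ee (ph b (n + θ n ω))) P :=
    int_bdd (meas_eo h n b) 1 (fun ω => (norm_ee _).le)
  have ibc : Integrable (fun ω => conj (ee (ph b (n + θ n ω)))) P := by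
    refine int_bdd (Complex.continuous_conj.measurable.comp (meas_eo h n b)) 1 (fun ω => ?_)
    rw [RCLike.norm_conj]; exact (norm_ee _).le
  have e : ∀ ω, rho (fun n => P.map (θ n)) n a (θ n ω) *
      conj (rho (fun n => P.map (θ n)) n b (θ n ω)) =
      (ee (ph (a - b) (n + θ n ω)) - ee (ph a (n + θ n ω)) * conj mb) -
        (ma * conj (ee (ph b (n + θ n ω))) - ma * conj mb) := by
    intro ω
    unfold rho
    rw [← ph_sub, ← ee_mul_conj, map_sub, ← hma, ← hmb]
    ring
  rw [integral_congr_ae (ae_of_all _ e)]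
  have e1 := integral_sub (μ := P) (f := fun ω => ee (ph (a - b) (n + θ n ω)) -
    ee (ph a (n + θ n ω)) * conj mb) (g := fun ω => ma * conj (ee (ph b (n + θ n ω))) - ma * conj mb)
    (i1.sub (ia.mul_const _)) ((ibc.const_mul _).sub (integrable_const _))
  rw [e1, integral_sub i1 (ia.mul_const _), integral_sub (ibc.const_mul _) (integrable_const _),
    integral_mul_const, integral_const_mul, integral_conj, int_eph h, int_eph h, int_eph h,
    ← hma, ← hmb]
  simp

end model

end Pool.Agent.U901.VE
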