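import Pool.Agent.U901.VE.VB

/-!
Project VE, package VAR, part 3: partial sums.
-/

set_option autoImplicit false

namespace Pool.Agent.U901.VE

open MeasureTheory ProbabilityTheory ComplexConjugate Pool.Agent.U6.VE
open scoped ENNReal NNReal

instance box_prob (k : ℕ) : IsProbabilityMeasure (volume.restrict (box k (1 / 2))) :=
  ⟨by rw [Measure.restrict_apply_univ]; exact box_vol k⟩

instance box_finm (k : ℕ) (S : ℝ) : IsFiniteMeasure (volume.restrict (box k S)) :=
  ⟨by rw [Measure.restrict_apply_univ]; exact (box_fin k S).lt_top⟩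

theorem box_const (k : ℕ) (c : ℝ) : ∫ _ in box k (1 / 2), c = c := by
  rw [integral_const, probReal_univ, one_smul]

theorem meas_rho' {k : ℕ} {ν : ℕ → Measure ℝ} {n : ℕ} (h : IsProbabilityMeasure (ν n)) {X : Type}
    [MeasurableSpace X] (u : X → Fin k → ℝ) (y : X → ℝ) (hu : Measurable u) (hy : Measurable y) :
    Measurable (fun x => rho ν n (u x) (y x)) := by
  have h1 : Measurable (fun x => (u x, y x)) := hu.prodMk hy
  have h2 := (meas_rho (k := k) (ν := ν) (n := n)).comp h1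
  exact h2

theorem int_im_le {k : ℕ} {ν : ℕ → Measure ℝ} (hν : ∀ n, IsProbabilityMeasure (ν n)) (C : ℝ) (n : ℕ)
    (hn : 1 ≤ n) (hC : ∫ α in box k 1, ‖im ν n α‖ ^ 2 ≤ C / n) :
    ∫ α in box k 1, ‖im ν n α‖ ≤ (C + (volume (box k 1)).toReal) / Real.sqrt n := by
  have := hν n
  have hn0 : (0 : ℝ) < n := by exact_mod_cast hn
  set w := Real.sqrt n with hw
  have hw0 : 0 < w := Real.sqrt_pos.mpr hn0
  have hww : w * w = n := Real.mul_self_sqrt hn0.le
  have hm : Measurable (im ν n : (Fin k → ℝ) → ℂ) := meas_im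
  have hi2 : Integrable (fun α : Fin k → ℝ => ‖im ν n α‖ ^ 2) (volume.restrict (box k 1)) := by
    refine int_bdd (hm.norm.pow_const 2) 1 (fun a => ?_)
    rw [norm_pow, norm_norm]
    exact pow_le_one₀ (norm_nonneg _) (norm_im_le a)
  have h1 : ∫ α in box k 1, ‖im ν n α‖ ≤ ∫ α in box k 1, (w * ‖im ν n α‖ ^ 2 + 1 / w) := by
    refine integral_mono_of_nonneg (ae_of_all _ (fun a => norm_nonneg _))
      ((hi2.const_mul _).add (integrable_const _)) (ae_of_all _ (fun a => ?_))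
    show ‖im ν n a‖ ≤ w * ‖im ν n a‖ ^ 2 + 1 / w
    have e : w * ‖im ν n a‖ ^ 2 + 1 / w - ‖im ν n a‖ =
        ((w * ‖im ν n a‖ - 1 / 2) ^ 2 + 3 / 4) / w := by
      field_simp
      ring
    have : 0 ≤ ((w * ‖im ν n a‖ - 1 / 2) ^ 2 + 3 / 4) / w := by positivity
    linarith
  refine h1.trans ?_
  rw [integral_add (hi2.const_mul _) (integrable_const _), integral_const_mul, integral_const]
  rw [Measure.real, Measure.restrict_apply_univ, smul_eq_mul, add_div]
  refine add_le_add ?_ (le_of_eq (by ring))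
  calc w * ∫ α in box k 1, ‖im ν n α‖ ^ 2 ≤ w * (C / n) := mul_le_mul_of_nonneg_left hC hw0.le
    _ = C / w := by rw [← hww]; field_simp

/-- the covariance kernel -/
theorem kappa_le {k : ℕ} {Ω : Type} [MeasurableSpace Ω] {P : Measure Ω} {D : ℝ≥0} {θ : ℕ → Ω → ℝ}
    (h : Model P D θ) (n : ℕ) :
    ∫ q : (Fin k → ℝ) × (Fin k → ℝ), ‖∫ ω, rho (fun n => P.map (θ n)) n q.1 (θ n ω) *
      conj (rho (fun n => P.map (θ n)) n q.2 (θ n ω)) ∂P‖
        ∂((volume.restrict (box k (1 / 2))).prod (volume.restrict (box k (1 / 2)))) ≤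
      2 * ∫ α in box k 1, ‖im (fun n => P.map (θ n)) n α‖ := by
  have hL := law_of_model h
  have := hL.prob n
  set ν : ℕ → Measure ℝ := fun n => P.map (θ n) with hν
  set J := ∫ α in box k 1, ‖im ν n α‖ with hJ
  have hm : Measurable (im ν n : (Fin k → ℝ) → ℂ) := meas_im
  have hshift : ∀ b ∈ box k (1 / 2), ∫ a in box k (1 / 2), ‖im ν n (a - b)‖ ≤ J := fun b hb =>
    box_shift (F := fun c => ‖im ν n c‖) hm.norm (fun c => norm_nonneg _) (fun c => norm_im_le c) b hb
  have h0 : (0 : Fin k → ℝ) ∈ box k (1 / 2) := by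
    unfold box
    rw [Set.mem_Icc]
    constructor
    · intro j; simp
    · intro j; simp
  have hJ0 : ∫ a in box k (1 / 2), ‖im ν n a‖ ≤ J := by
    have := hshift 0 h0
    simpa using this
  have hms : Measurable (fun q : (Fin k → ℝ) × (Fin k → ℝ) => ‖im ν n (q.1 - q.2)‖) :=
    (hm.comp (measurable_fst.sub measurable_snd)).norm
  have hmf : Measurable (fun q : (Fin k → ℝ) × (Fin k → ℝ) => ‖im ν n q.1‖) :=
    (hm.comp measurable_fst).norm
  have i1 : Integrable (fun q : (Fin k → ℝ) × (Fin k → ℝ) => ‖im ν n (q.1 - q.2)‖)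
      ((volume.restrict (box k (1 / 2))).prod (volume.restrict (box k (1 / 2)))) :=
    int_bdd hms 1 (fun q => by rw [norm_norm]; exact norm_im_le _)
  have i2 : Integrable (fun q : (Fin k → ℝ) × (Fin k → ℝ) => ‖im ν n q.1‖)
      ((volume.restrict (box k (1 / 2))).prod (volume.restrict (box k (1 / 2)))) :=
    int_bdd hmf 1 (fun q => by rw [norm_norm]; exact norm_im_le _)
  have h1 : ∫ q : (Fin k → ℝ) × (Fin k → ℝ), ‖∫ ω, rho ν n q.1 (θ n ω) *
      conj (rho ν n q.2 (θ n ω)) ∂P‖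
        ∂((volume.restrict (box k (1 / 2))).prod (volume.restrict (box k (1 / 2)))) ≤
      ∫ q : (Fin k → ℝ) × (Fin k → ℝ), (‖im ν n (q.1 - q.2)‖ + ‖im ν n q.1‖)
        ∂((volume.restrict (box k (1 / 2))).prod (volume.restrict (box k (1 / 2)))) := by
    refine integral_mono_of_nonneg (ae_of_all _ (fun q => norm_nonneg _)) (i1.add i2)
      (ae_of_all _ (fun q => ?_))
    show ‖∫ ω, rho ν n q.1 (θ n ω) * conj (rho ν n q.2 (θ n ω)) ∂P‖ ≤
      ‖im ν n (q.1 - q.2)‖ + ‖im ν n q.1‖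
    rw [cov_rho h n q.1 q.2]
    refine (norm_sub_le _ _).trans (add_le_add le_rfl ?_)
    rw [norm_mul, RCLike.norm_conj]
    exact mul_le_of_le_one_right (norm_nonneg _) (norm_im_le _)
  refine h1.trans ?_
  rw [integral_add i1 i2, integral_prod_symm _ i1, integral_prod_symm _ i2]
  have h2 : ∫ y in box k (1 / 2), ∫ x in box k (1 / 2), ‖im ν n (x - y)‖ ≤ J := by
    calc ∫ y in box k (1 / 2), ∫ x in box k (1 / 2), ‖im ν n (x - y)‖
        ≤ ∫ _ in box k (1 / 2), J := by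
          refine integral_mono_of_nonneg
            (ae_of_all _ (fun y => integral_nonneg (fun x => norm_nonneg _)))
            (integrable_const _) ?_
          exact (ae_restrict_iff' (box_meas k (1 / 2))).mpr (ae_of_all _ hshift)
      _ = J := box_const k J
  have h3 : ∫ _ in box k (1 / 2), ∫ x in box k (1 / 2), ‖im ν n x‖ ≤ J := by
    calc ∫ _ in box k (1 / 2), ∫ x in box k (1 / 2), ‖im ν n x‖
        = ∫ x in box k (1 / 2), ‖im ν n x‖ := box_const k _
      _ ≤ J := hJ0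
  show (∫ y in box k (1 / 2), ∫ x in box k (1 / 2), ‖im ν n (x - y)‖) +
    (∫ _ in box k (1 / 2), ∫ x in box k (1 / 2), ‖im ν n x‖) ≤ 2 * J
  linarith

/-- the moment of a partial sum, as a function of the perturbations -/
noncomputable def FA (k s : ℕ) (ν : ℕ → Measure ℝ) (A : Finset ℕ) (x : ℕ → ℝ) : ℝ :=
  ∫ α in box k (1 / 2), ‖∑ m ∈ A, rho ν m α (x m)‖ ^ (2 * s)

theorem norm_sum_le {k : ℕ} {ν : ℕ → Measure ℝ} (hν : ∀ n, IsProbabilityMeasure (ν n))
    (A : Finset ℕ) (x : ℕ → ℝ) (α : Fin k → ℝ) : ‖∑ m ∈ A, rho ν m α (x m)‖ ≤ 2 * A.card := by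
  refine (norm_sum_le_of_le A (f := fun m => rho ν m α (x m)) (n := fun _ => (2 : ℝ))
    (fun m _ => ?_)).trans ?_
  · have := hν m
    exact norm_rho α (x m)
  · rw [Finset.sum_const, nsmul_eq_mul, mul_comm]

theorem meas_sum {k : ℕ} {ν : ℕ → Measure ℝ} (hν : ∀ n, IsProbabilityMeasure (ν n)) (A : Finset ℕ)
    {X : Type} [MeasurableSpace X] (u : X → Fin k → ℝ) (hu : Measurable u) (y : ℕ → X → ℝ)
    (hy : ∀ m, Measurable (y m)) : Measurable (fun z => ∑ m ∈ A, rho ν m (u z) (y m z)) := by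
  exact Finset.measurable_sum _ (fun m _ => meas_rho' (hν m) u (y m) hu (hy m))

theorem meas_FA {k s : ℕ} {ν : ℕ → Measure ℝ} (hν : ∀ n, IsProbabilityMeasure (ν n))
    (A : Finset ℕ) : Measurable (FA k s ν A) := by
  unfold FA
  have h1 : Measurable (fun z : (ℕ → ℝ) × (Fin k → ℝ) =>
      ‖∑ m ∈ A, rho ν m z.2 (z.1 m)‖ ^ (2 * s)) :=
    (meas_sum hν A (fun z : (ℕ → ℝ) × (Fin k → ℝ) => z.2) measurable_snd (fun m z => z.1 m)
      (fun m => (measurable_pi_apply m).comp measurable_fst)).norm.pow_const _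
  exact (MeasureTheory.StronglyMeasurable.integral_prod_right'
    (ν := volume.restrict (box k (1 / 2))) h1.stronglyMeasurable).measurable

theorem abs_FA {k s : ℕ} {ν : ℕ → Measure ℝ} (hν : ∀ n, IsProbabilityMeasure (ν n)) {N : ℕ}
    {A : Finset ℕ} (hA : A.card ≤ N) (x : ℕ → ℝ) : |FA k s ν A x| ≤ (2 * N) ^ (2 * s) := by
  unfold FA
  have h1 := norm_integral_le_of_norm_le_const (μ := volume.restrict (box k (1 / 2)))
    (f := fun α => ‖∑ m ∈ A, rho ν m α (x m)‖ ^ (2 * s)) (C := (2 * (N : ℝ)) ^ (2 * s))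
    (ae_of_all _ (fun α => by
      rw [norm_pow, norm_norm]
      refine pow_le_pow_left₀ (norm_nonneg _) ((norm_sum_le hν A x α).trans ?_) _
      have : (A.card : ℝ) ≤ N := by exact_mod_cast hA
      linarith))
  rwa [probReal_univ, mul_one, Real.norm_eq_abs] at h1

theorem ZZ_eq {k s : ℕ} {Ω : Type} [MeasurableSpace Ω] (P : Measure Ω) (θ : ℕ → Ω → ℝ) (N : ℕ)
    (ω : Ω) : ZZ k s P θ N ω =
      FA k s (fun n => P.map (θ n)) (Finset.Icc 1 N) (fun n => θ n ω) := by
  unfold ZZ FA RM SM IM rho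
  simp_rw [Finset.sum_sub_distrib]

end Pool.Agent.U901.VE
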